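import Pool.Agent.J4H22.IX.Stm

/-! Project IX, piece CNT (helper84): approximate counting by random subsets. -/

set_option autoImplicit false

namespace Pool.Agent.J4H84.IX

open Finset Pool.Agent.J4H22.IX

/-- the first members of the representations -/
def fst (A B : Finset ℕ) (z : ℕ) : Finset ℕ := A.filter fun x => ∃ y ∈ B, x + y = z

lemma rep_eq (A B T : Finset ℕ) (z : ℕ) (hT : T ⊆ A) : rep T B z = (T ∩ fst A B z).card := by
  unfold rep
  have hinj : Set.InjOn (Prod.fst : ℕ × ℕ → ℕ)
      (((T ×ˢ B).filter fun q : ℕ × ℕ => q.1 + q.2 = z : Finset (ℕ × ℕ)) : Set (ℕ × ℕ)) := by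
    rintro ⟨a, b⟩ h1 ⟨a', b'⟩ h2 h3
    simp only [coe_filter, mem_product, Set.mem_ofPred_eq] at h1 h2 h3
    obtain ⟨-, h1⟩ := h1
    obtain ⟨-, h2⟩ := h2
    subst h3
    simp only [Prod.mk.injEq, true_and]
    omega
  rw [← card_image_of_injOn hinj]
  congr 1
  ext x
  simp only [mem_image, mem_filter, mem_product, Prod.exists, exists_and_right, exists_eq_right,
    mem_inter, fst]
  constructor
  · rintro ⟨y, ⟨h1, h2⟩, h3⟩
    exact ⟨h1, hT h1, y, h2, h3⟩
  · rintro ⟨h1, -, y, h2, h3⟩
    exact ⟨y, ⟨h1, h2⟩, h3⟩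

lemma rep_self (A B : Finset ℕ) (z : ℕ) : rep A B z = (fst A B z).card := by
  rw [rep_eq A B A z (Subset.refl _), inter_eq_right.2 (show fst A B z ⊆ A from filter_subset _ _)]

lemma exp_four : Real.exp (-4) ≤ 1 / 8 := by
  rw [Real.exp_neg, inv_eq_one_div]
  apply one_div_le_one_div_of_le (by norm_num)
  have := Real.quadratic_le_exp_of_nonneg (x := 4) (by norm_num)
  linarith

theorem t_CNT : S_CNT := by
  classical
  intro hMAJ hSAM w A B
  have key : ∀ i : Fin (w + 1), ∃ S : Fin (2 * (w + 1)) → Finset ℕ, (∀ j, S j ⊆ A) ∧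
      ∀ z < 2 ^ (w + 1), (4 * 2 ^ (i : ℕ) ≤ rep A B z → w + 1 < {j | 1 ≤ rep (S j) B z}.ncard) ∧
        (8 * rep A B z ≤ 2 ^ (i : ℕ) → {j | 1 ≤ rep (S j) B z}.ncard < w + 1) := by
    intro i
    obtain ⟨p, hp⟩ : ∃ p : ℝ, p = (1 / 2 : ℝ) ^ (i : ℕ) := ⟨_, rfl⟩
    have hp0 : 0 ≤ p := by rw [hp]; positivity
    have hp1 : p ≤ 1 := by rw [hp]; exact pow_le_one₀ (by norm_num) (by norm_num)
    have hp2 : p * 2 ^ (i : ℕ) = 1 := by
      rw [hp, ← mul_pow]
      norm_num
    obtain ⟨μ, hμ0, hμ1, hμ⟩ := hSAM A p hp0 hp1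
    have hzero : ∀ z, ∑ ω, ({T | rep T.1 B z = 0} : Set A.powerset).indicator μ ω =
        (1 - p) ^ (rep A B z) := by
      intro z
      have h1 := (hμ (fst A B z) (filter_subset _ _)).1
      rw [← rep_self] at h1
      rw [← h1]
      congr 1
      ext ω
      congr 1
      ext T
      simp only [Set.mem_ofPred_eq]
      rw [rep_eq A B T.1 z (mem_powerset.1 T.2), card_eq_zero, disjoint_iff_inter_eq_empty]
    have hone : ∀ z, ∑ ω, ({T | 1 ≤ rep T.1 B z} : Set A.powerset).indicator μ ω =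
        1 - (1 - p) ^ (rep A B z) := by
      intro z
      have h1 : ∀ ω, ({T | 1 ≤ rep T.1 B z} : Set A.powerset).indicator μ ω =
          μ ω - ({T | rep T.1 B z = 0} : Set A.powerset).indicator μ ω := by
        intro ω
        simp only [Set.indicator_apply, Set.mem_ofPred_eq]
        by_cases h : rep ω.1 B z = 0
        · rw [if_pos h, if_neg (by omega)]
          ring
        · rw [if_neg h, if_pos (by omega)]
          ring
      simp only [h1]
      rw [sum_sub_distrib, hμ1, hzero]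
    obtain ⟨f, hf⟩ := hMAJ A.powerset ℕ μ (range (2 ^ (w + 1)))
      (fun z => if 4 * 2 ^ (i : ℕ) ≤ rep A B z then {T | rep T.1 B z = 0} else
        if 8 * rep A B z ≤ 2 ^ (i : ℕ) then {T | 1 ≤ rep T.1 B z} else ∅) (w + 1) (by omega)
      hμ0 hμ1
      (by
        intro z _
        split_ifs with h1 h2
        · rw [hzero]
          have h3 : (1 - p) ^ (rep A B z) ≤ Real.exp (-4) := by
            calc (1 - p) ^ (rep A B z) ≤ (Real.exp (-p)) ^ (rep A B z) :=
                  pow_le_pow_left₀ (by linarith) (by linarith [Real.add_one_le_exp (-p)]) _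
              _ = Real.exp ((rep A B z : ℝ) * (-p)) := (Real.exp_nat_mul _ _).symm
              _ ≤ Real.exp (-4) := by
                apply Real.exp_le_exp.2
                have h4 : (4 * 2 ^ (i : ℕ) : ℝ) ≤ (rep A B z : ℝ) := by exact_mod_cast h1
                nlinarith
          exact h3.trans exp_four
        · rw [hone]
          have h3 : 1 + (rep A B z : ℝ) * (-p) ≤ (1 + (-p)) ^ (rep A B z) :=
            one_add_mul_le_pow (by linarith) _
          have h4 : (8 * rep A B z : ℝ) ≤ 2 ^ (i : ℕ) := by exact_mod_cast h2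
          have h5 : 1 + -p = 1 - p := by ring
          rw [h5] at h3
          nlinarith
        · simp)
      (by rw [card_range])
    refine ⟨fun j => (f j).1, fun j => mem_powerset.1 (f j).2, fun z hz => ⟨fun h1 => ?_,
      fun h2 => ?_⟩⟩
    · have h3 := hf z (mem_range.2 hz)
      simp only [if_pos h1, Set.mem_ofPred_eq] at h3
      have h4 := Set.ncard_add_ncard_compl {j : Fin (2 * (w + 1)) | rep (f j).1 B z = 0}
      have h5 : {j : Fin (2 * (w + 1)) | rep (f j).1 B z = 0}ᶜ = {j | 1 ≤ rep (f j).1 B z} := by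
        ext j
        simp only [Set.mem_compl_iff, Set.mem_ofPred_eq]
        omega
      rw [h5, Nat.card_eq_fintype_card, Fintype.card_fin] at h4
      show w + 1 < {j | 1 ≤ rep (f j).1 B z}.ncard
      omega
    · have h3 := hf z (mem_range.2 hz)
      have h1 : ¬ 4 * 2 ^ (i : ℕ) ≤ rep A B z := by
        have : 0 < 2 ^ (i : ℕ) := by positivity
        omega
      simp only [if_neg h1, if_pos h2, Set.mem_ofPred_eq] at h3
      exact h3
  choose S h1 h2 using key
  exact ⟨S, fun i j => h1 i j, fun z hz i => h2 i z hz⟩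

end Pool.Agent.J4H84.IX
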