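import Pool.Agent.J4H22.IX.Stm

/-! Project IX, piece HSH (helper84): random multipliers for the hashing. -/

set_option autoImplicit false

namespace Pool.Agent.J4H84.IX

open Finset Pool.Agent.J4H22.IX

theorem t_HSH : S_HSH := by
  classical
  intro hMAJ hHG hHB n w hn hw
  obtain ⟨p, hp, hp1, hp2⟩ := Nat.exists_prime_lt_and_le_two_mul (2 ^ (w + 2)) (by positivity)
  have e3 : 2 ^ (w + 3) = 8 * 2 ^ w := by rw [pow_add]; ring
  have e2 : 2 ^ (w + 2) = 4 * 2 ^ w := by rw [pow_add]; ring
  have e1 : 2 ^ (w + 1) = 2 * 2 ^ w := by rw [pow_add]; ring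
  have hp3 : p ≤ 2 ^ (w + 3) := by omega
  have hD0 : 0 < 64 * n ^ 2 := by positivity
  obtain ⟨D, hD⟩ : ∃ D, D = 64 * n ^ 2 := ⟨_, rfl⟩
  rw [← hD] at hD0 hw
  have hdm := Nat.div_add_mod p D
  have hml := Nat.mod_lt p hD0
  refine ⟨p, p / D + 1, Nat.le_add_left 1 _, hp3, ?_, ?_⟩
  · intro a x
    rw [← hD]
    unfold hsh
    apply Nat.div_lt_of_lt_mul
    have h1 : a * x % p < p := Nat.mod_lt _ hp.pos
    have h2 : (p / D + 1) * D = D * (p / D) + D := by ring
    rw [h2]
    omega
  · intro A B hA hB hAx hBy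
    have hp5 : 4 < p := by
      have : 1 ≤ 2 ^ w := Nat.one_le_two_pow
      omega
    have hpr : (0 : ℝ) < ((p - 1 : ℕ) : ℝ) := by
      have : 0 < p - 1 := by omega
      exact_mod_cast this
    have hbad : ∀ z, z < 2 ^ (w + 1) → rep A B z ≤ 1 →
        8 * (univ.filter fun ω : Fin (p - 1) =>
          ¬ GoodMul p (p / D + 1) A B z ((ω : ℕ) + 1)).card ≤ p - 1 := by
      intro z hz hrep
      have hB1 := hHB p (p / D + 1) n (2 ^ w) A B z hp (by omega) hn (Nat.le_add_left 1 _)
        (by omega) (by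
          rw [← hD, Nat.add_sub_cancel]
          omega) hA hB hAx hBy (by omega)
      refine le_trans ?_ hB1
      apply Nat.mul_le_mul_left
      have hinj : Function.Injective (fun ω : Fin (p - 1) => (ω : ℕ) + 1) := by
        intro a b hab
        apply Fin.ext
        dsimp only at hab
        omega
      rw [← card_image_of_injective _ hinj, ← Set.ncard_coe_finset]
      apply Set.ncard_le_ncard
      · intro a ha
        rw [mem_coe, mem_image] at ha
        obtain ⟨ω, hω, rfl⟩ := ha
        rw [mem_filter] at hω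
        refine ⟨by omega, by have := ω.2; omega, ?_⟩
        by_contra hcon
        apply hω.2
        apply hHG p (p / D + 1) A B z ((ω : ℕ) + 1) (Nat.le_add_left 1 _) hp.one_lt.le hrep
        intro x hx y hy hxy d hd hdvd
        exact hcon ⟨x, hx, y, hy, hxy, d, hd, hdvd⟩
      · exact (Set.finite_lt_nat p).subset fun a ha => ha.2.1
    obtain ⟨f, hf⟩ := hMAJ (Fin (p - 1)) ℕ (fun _ => 1 / ((p - 1 : ℕ) : ℝ))
      ((range (2 ^ (w + 1))).filter fun z => rep A B z ≤ 1)
      (fun z => {ω | ¬ GoodMul p (p / D + 1) A B z ((ω : ℕ) + 1)}) (w + 1) (by omega)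
      (fun _ => by positivity)
      (by
        rw [sum_const, card_univ, Fintype.card_fin, nsmul_eq_mul]
        field_simp)
      (by
        intro z hz
        rw [mem_filter, mem_range] at hz
        have h1 := hbad z hz.1 hz.2
        have h2 : ∑ ω : Fin (p - 1), ({ω | ¬ GoodMul p (p / D + 1) A B z ((ω : ℕ) + 1)} :
            Set (Fin (p - 1))).indicator (fun _ => 1 / ((p - 1 : ℕ) : ℝ)) ω =
            ((univ.filter fun ω : Fin (p - 1) =>
              ¬ GoodMul p (p / D + 1) A B z ((ω : ℕ) + 1)).card : ℝ) *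
              (1 / ((p - 1 : ℕ) : ℝ)) := by
          simp only [Set.indicator_apply, Set.mem_ofPred_eq]
          rw [sum_ite, sum_const_zero, add_zero, sum_const, nsmul_eq_mul]
        rw [h2, mul_one_div, div_le_div_iff₀ hpr (by norm_num), one_mul]
        have h3 : ((8 * (univ.filter fun ω : Fin (p - 1) =>
            ¬ GoodMul p (p / D + 1) A B z ((ω : ℕ) + 1)).card : ℕ) : ℝ) ≤ ((p - 1 : ℕ) : ℝ) := by
          exact_mod_cast h1
        push_cast at h3 ⊢
        linarith)
      (by
        refine (card_filter_le _ _).trans ?_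
        rw [card_range])
    refine ⟨fun j => (f j : ℕ) + 1, fun j => ?_, fun z hz hrep => ?_⟩
    · have h1 := (f j).2
      show (f j : ℕ) + 1 < p
      omega
    exact hf z (by rw [mem_filter, mem_range]; exact ⟨hz, hrep⟩)

end Pool.Agent.J4H84.IX
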