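import Pool.Agent.J4H22.IX.Stm2
import Pool.Agent.J4H68.IX.Asm

/-! Project IX, piece AS2 (helper84): assembly of the second part. -/

set_option autoImplicit false

namespace Pool.Agent.J4H84.IX

open Finset Pool.Agent.J4H22.IX Pool.Agent.J4H68.IX

theorem det_rand {O : Type} {Ok : Finset ℕ → Finset ℕ → ℕ → O → Prop} {n N s w t : ℕ}
    (h : Structure O Ok n N s w t) (δ : ℝ) (hδ : δ ≤ 1 / 2) : RStructure O Ok n N s w t δ := by
  obtain ⟨Q, h1, h2⟩ := h
  refine ⟨Unit, inferInstance, fun _ => 1, fun _ => Q, fun _ => zero_le_one, by simp,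
    fun _ z => h1 z, fun A B hA hB hA' hB' => ?_⟩
  obtain ⟨m, hm⟩ := h2 A B hA hB hA' hB'
  refine ⟨fun _ => m, fun z => ?_⟩
  rw [Finset.univ_unique, sum_singleton, Set.indicator_of_mem]
  · linarith
  · exact hm z

theorem form_rform (c : ℕ) (N : ℕ → ℕ) (h : Form Bool OkWeak c N) : RForm Bool OkWeak c N := by
  obtain ⟨ε, C, hε, H⟩ := h
  refine ⟨ε, C + 1, hε, fun n hn => ?_⟩
  obtain ⟨s, t, h1, h2, h3⟩ := H n hn
  have hL1 : 1 ≤ Nat.clog 2 n := Nat.clog_pos (by norm_num) hn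
  have hL1' : (1 : ℝ) ≤ (Nat.clog 2 n : ℕ) := by exact_mod_cast hL1
  refine ⟨s, t, ?_, ?_, ?_⟩
  · refine h1.trans ?_
    apply mul_le_mul_of_nonneg_right _ (by positivity)
    push_cast
    linarith
  · refine h2.trans ?_
    exact Nat.mul_le_mul (Nat.le_succ C) (Nat.pow_le_pow_right hL1 (Nat.le_succ C))
  · apply det_rand h3
    have h4 : (1 : ℝ) ≤ (Nat.clog 2 n : ℝ) ^ (C + 1) := one_le_pow₀ hL1'
    apply one_div_le_one_div_of_le (by norm_num)
    push_cast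
    have h5 : (0 : ℝ) ≤ C := Nat.cast_nonneg C
    nlinarith

theorem t_AS2 : S_AS2 := by
  intro hFIN hRAS hUNI c c' D hc hc'
  have hT := hFIN c c' hc hc'
  have hN : ∀ n, 2 ≤ n → n ^ 2 / Nat.clog 2 n ^ D ≤ 64 * n ^ 2 := fun n _ =>
    (Nat.div_le_self _ _).trans (Nat.le_mul_of_pos_left _ (by norm_num))
  tfae_have 1 → 2 := fun h => by
    have h1 := hRAS c (fun n => n ^ 2 / Nat.clog 2 n ^ D) hc
      (fun n hn => (hN n hn).trans (universe_le n c hn hc)) h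
    exact (hT.out 0 1).1 (hUNI c D hc h1)
  tfae_have 2 → 1 := fun h => by
    have h1 : Form Bool OkWeak c (fun n => 64 * n ^ 2) := (hT.out 0 1).2 h
    apply form_rform
    obtain ⟨ε, C, hε, H⟩ := h1
    refine ⟨ε, C, hε, fun n hn => ?_⟩
    obtain ⟨s, t, h1, h2, h3⟩ := H n hn
    exact ⟨s, t, h1, h2, restrict id (hN n hn) (fun _ _ _ _ h => h) h3⟩
  tfae_have 2 ↔ 3 := hT.out 1 2
  tfae_finish

end Pool.Agent.J4H84.IX
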